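import Pool.Agent.W14.US.Stm

/-!
Project US, part ITER: the sequence.
-/

set_option autoImplicit false
open Complex MeasureTheory
open scoped ContDiff

namespace Pool.Agent.W165.US

open Pool.Agent.W14.US

theorem exists_seq_aux {α : Type*} (P : ℕ → α → Prop) (R : ℕ → α → α → Prop) (a : α)
    (ha : P 0 a) (h : ∀ n x, P n x → ∃ y, P (n + 1) y ∧ R n x y) :
    ∃ f : ℕ → α, f 0 = a ∧ ∀ n, P n (f n) ∧ R n (f n) (f (n + 1)) := by
  choose g hg using h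
  let F : (n : ℕ) → {x : α // P n x} := fun n =>
    Nat.rec (motive := fun n => {x : α // P n x}) ⟨a, ha⟩
      (fun n x => ⟨g n x.1 x.2, (hg n x.1 x.2).1⟩) n
  refine ⟨fun n => (F n).1, rfl, fun n => ⟨(F n).2, ?_⟩⟩
  exact (hg n (F n).1 (F n).2).2

theorem exists_phi : ∃ φ : ℂ → ℂ, Ad φ ∧ φ 0 = 1 ∧ ∀ z, 2 ≤ ‖z‖ → φ z = 0 := by
  let f : ContDiffBump (0 : ℂ) := ⟨1, 2, one_pos, one_lt_two⟩
  refine ⟨fun z => ((f z : ℝ) : ℂ), ⟨?_, ?_⟩, ?_, ?_⟩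
  · exact Complex.ofRealCLM.contDiff.comp f.contDiff
  · exact f.hasCompactSupport.comp_left (g := fun x : ℝ => (x : ℂ)) (by simp)
  · have h1 : f 0 = 1 := f.one_of_mem_closedBall (by simp [f])
    simp [h1]
  · intro z hz
    have h0 : f z = 0 := f.zero_of_le_dist (by simpa [f] using hz)
    simp [h0]

theorem iter : S_DER → S_CALC → S_STEP → S_ITER := by
  intro hD hC hS
  obtain ⟨φ, hφ, hφ0, hφ2⟩ := exists_phi
  have hc := hC false (fun _ => 0) φ contDiff_const hφ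
  have hk0 : Ad (db φ) := hc.1
  have hdφ : Ad (dd φ) := hc.2.1
  have hT0 : T (db φ) = φ := by
    funext z
    exact ((hD φ hφ).2 z).1
  obtain ⟨C1, hC1⟩ := hdφ.1.continuous.bounded_above_of_compact_support hdφ.2
  obtain ⟨C2, hC2⟩ := hk0.1.continuous.bounded_above_of_compact_support hk0.2
  have hB0 : ∀ z, ‖T (dd (db φ)) z‖ + ‖db φ z‖ ≤ C1 + C2 := by
    intro z
    have h1 := ((hD (db φ) hk0).2 z).2.2
    rw [hT0] at h1
    rw [← h1]
    exact add_le_add (hC1 z) (hC2 z)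
  obtain ⟨e, he⟩ := exists_surjective_nat (Bool × ℚ)
  obtain ⟨k, hk00, hk⟩ := exists_seq_aux
    (fun n k => Ad k ∧ ∀ z, ‖T (dd k) z‖ + ‖k z‖ ≤ C1 + C2 + 1 / 4 - 1 / 4 * (1 / 2) ^ n)
    (fun n k k' => (∀ z, k z = 0 → k' z = 0) ∧
      (∃ s > 0, ∀ z, |co (e n).1 z - ((e n).2 : ℝ)| < s → k' z = 0) ∧
      (∀ z, ‖T k' z - T k z‖ ≤ (1 / 8) * (1 / 2) ^ n)) (db φ)
    ⟨hk0, fun z => by simpa using hB0 z⟩ (by
      rintro n k ⟨hk, hkB⟩
      obtain ⟨k', h1, h2, h3, h4, h5⟩ := hS k _ ((1 / 8) * (1 / 2) ^ n) ((e n).2 : ℝ) (e n).1 hk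
        (by positivity) hkB
      refine ⟨k', ⟨h1, fun z => (h5 z).trans (le_of_eq ?_)⟩, h2, h3, h4⟩
      rw [pow_succ]
      ring)
  refine ⟨k, C1 + C2 + 1 / 4, fun n => (hk n).1.1, fun n z => ((hk n).1.2 z).trans ?_,
    fun n z => (hk n).2.2.2 z, ?_, ?_, ?_⟩
  · have : (0 : ℝ) ≤ 1 / 4 * (1 / 2) ^ n := by positivity
    linarith
  · intro b q
    obtain ⟨n, hn⟩ := he (b, q)
    obtain ⟨s, hs, h⟩ := (hk n).2.2.1
    rw [hn] at h
    refine ⟨s, hs, n + 1, fun m hm z hz => ?_⟩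
    induction m, hm using Nat.le_induction with
    | base => exact h z hz
    | succ m _ ih => exact (hk m).2.1 z ih
  · rw [hk00, hT0, hφ0]
  · intro z hz
    rw [hk00, hT0, hφ2 z hz]

end Pool.Agent.W165.US
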